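import Pool.Agent.H95R3.NS.Bridge

/-!
# A strictly outer action without ergodic cocycle perturbation, for every infinite discrete group

Let `G` be any infinite discrete group (for instance the amenable, locally compact, noncompact
group `ℤ`), `Γ` the group of finitely supported permutations of the disjoint union of `G` and
`2^G`, on which `G` acts through left translation of the first summand, and `M = L(Γ)`, the
commutant of the right translations of `ℓ²(Γ)`. The action of `G` on `M` induced by conjugation is
strictly outer because all twisted conjugacy classes of `Γ` are infinite. The elements `v_g` of a
1-cocycle have countable supports, so some transposition of two points of `2^G` commutes with all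
`v_g` and is fixed by the action: the cocycle perturbation is never ergodic.
-/

set_option autoImplicit false

namespace Pool.Agent.Results.MP_418a80_an.NonseparableFactor

open Pool.Agent.H95R3.NS.Pub

/-- For every infinite discrete group `G` there are a II₁ factor `M` and a strictly outer action `α`
of `G` on `M` such that for no 1-cocycle `v` for `α` the cocycle perturbation `Ad v ∘ α` is
ergodic. -/
theorem result (G : Type) [Group G] [Infinite G] :
    ∃ (H : Type) (_ : NormedAddCommGroup H) (_ : InnerProductSpace ℂ H) (_ : CompleteSpace H)
      (M : Set (Op H)) (α : G → Op H → Op H),
      IsIIOneFactor M ∧ IsAction M α ∧ StrictlyOuter M α ∧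
      ∀ v : G → Op H, IsCocycle M α v → ¬ ErgodicPerturbation M α v :=
  main G

end Pool.Agent.Results.MP_418a80_an.NonseparableFactor
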